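import Mathlib

/-!
# The perimeter of the convex hull of finitely many points of the plane
-/

set_option autoImplicit false

open MeasureTheory Filter Topology Set
open scoped ENNReal

namespace Pool.Agent.Q211.PV

/-- The plane. -/
abbrev Pl := EuclideanSpace ℝ (Fin 2)

open Classical in
/-- The perimeter of a compact convex set: the length (one dimensional Hausdorff measure) of its
boundary if it has interior points, and twice its length otherwise. -/
noncomputable def perimeter (K : Set Pl) : ℝ :=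
  if (interior K).Nonempty then (μH[1] (frontier K)).toReal else 2 * (μH[1] K).toReal

theorem perimeter_eq (K : Set Pl) (hK : IsClosed K) :
    perimeter K = (μH[1] (K \ interior K)).toReal ∨
      perimeter K = 2 * (μH[1] (K \ interior K)).toReal := by
  unfold perimeter
  split_ifs with h
  · left
    rw [hK.frontier_eq]
  · right
    rw [Set.not_nonempty_iff_eq_empty.1 h, Set.sdiff_empty]

theorem mem_segment_of_not_interior (s : Set Pl) (x : Pl) (hx : x ∈ convexHull ℝ s)
    (hx2 : x ∉ interior (convexHull ℝ s)) : ∃ p ∈ s, ∃ q ∈ s, x ∈ segment ℝ p q := by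
  obtain ⟨ι, _, z, w, hz, hai, hw, hw1, hwx⟩ := eq_pos_convex_span_of_mem_convexHull hx
  have hfin : Module.finrank ℝ Pl = 2 := by simp
  have hcard : Fintype.card ι ≤ 3 := by
    have h1 := hai.card_le_finrank_succ
    have h2 : Module.finrank ℝ (vectorSpan ℝ (range z)) ≤ Module.finrank ℝ Pl :=
      Submodule.finrank_le _
    omega
  have h3 : Fintype.card ι ≠ 3 := by
    intro h3
    apply hx2
    have htop : affineSpan ℝ (range z) = ⊤ :=
      hai.affineSpan_eq_top_iff_card_eq_finrank_add_one.2 (by rw [h3, hfin])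
    let b : AffineBasis ι ℝ Pl := ⟨z, hai, htop⟩
    have hb : ⇑b = z := rfl
    have h4 : x ∈ interior (convexHull ℝ (range b)) := by
      rw [AffineBasis.interior_convexHull]
      intro i
      have h5 : x = Finset.univ.affineCombination ℝ b w := by
        rw [Finset.affineCombination_eq_linear_combination _ _ _ hw1, hb, hwx]
      rw [h5, b.coord_apply_combination_of_mem (Finset.mem_univ i) hw1]
      exact hw i
    exact interior_mono (convexHull_mono (by rw [hb]; exact hz)) h4
  have h0 : Fintype.card ι ≠ 0 := by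
    intro h0
    have := Fintype.card_eq_zero_iff.1 h0
    simp at hw1
  have h12 : Fintype.card ι = 1 ∨ Fintype.card ι = 2 := by omega
  rcases h12 with h1 | h2
  · let e := Fintype.equivFinOfCardEq h1
    have h4 : ∑ i : Fin 1, w (e.symm i) = 1 := by rw [e.symm.sum_comp w, hw1]
    have h5 : ∑ i : Fin 1, w (e.symm i) • z (e.symm i) = x := by
      rw [e.symm.sum_comp fun i => w i • z i, hwx]
    simp only [Finset.univ_unique, Finset.sum_singleton] at h4 h5
    refine ⟨z (e.symm default), hz (mem_range_self _), z (e.symm default), hz (mem_range_self _), ?_⟩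
    rw [← h5, h4, one_smul]
    exact left_mem_segment ℝ _ _
  · let e := Fintype.equivFinOfCardEq h2
    have h4 : ∑ i : Fin 2, w (e.symm i) = 1 := by rw [e.symm.sum_comp w, hw1]
    have h5 : ∑ i : Fin 2, w (e.symm i) • z (e.symm i) = x := by
      rw [e.symm.sum_comp fun i => w i • z i, hwx]
    rw [Fin.sum_univ_two] at h4 h5
    exact ⟨z (e.symm 0), hz (mem_range_self _), z (e.symm 1), hz (mem_range_self _),
      w (e.symm 0), w (e.symm 1), (hw _).le, (hw _).le, h4, h5⟩

/-- The convex hull of the first `n + 1` points of a sequence. -/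
def hull (S : ℕ → Pl) (n : ℕ) : Set Pl := convexHull ℝ (S '' Set.Iic n)

theorem hull_compact (S : ℕ → Pl) (n : ℕ) : IsCompact (hull S n) :=
  Set.Finite.isCompact_convexHull (𝕜 := ℝ) ((Set.finite_Iic n).image S)

theorem mem_hull (S : ℕ → Pl) (n k : ℕ) (h : k ≤ n) : S k ∈ hull S n :=
  subset_convexHull ℝ _ ⟨k, h, rfl⟩

theorem boundary_le (S : ℕ → Pl) (n : ℕ) :
    μH[1] (hull S n \ interior (hull S n)) ≤
      ENNReal.ofReal (∑ i ∈ Finset.range (n + 1), ∑ j ∈ Finset.range (n + 1),
        dist (S i) (S j)) := by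
  have h1 : hull S n \ interior (hull S n) ⊆
      ⋃ i ∈ Finset.range (n + 1), ⋃ j ∈ Finset.range (n + 1), segment ℝ (S i) (S j) := by
    rintro x ⟨hx, hx2⟩
    obtain ⟨p, ⟨i, hi, rfl⟩, q, ⟨j, hj, rfl⟩, h⟩ := mem_segment_of_not_interior _ x hx hx2
    simp only [mem_iUnion, Finset.mem_range]
    exact ⟨i, Nat.lt_succ_of_le hi, j, Nat.lt_succ_of_le hj, h⟩
  refine (measure_mono h1).trans ?_
  refine (measure_biUnion_finset_le _ _).trans ?_
  rw [ENNReal.ofReal_sum_of_nonneg fun i _ => Finset.sum_nonneg fun j _ => dist_nonneg]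
  refine Finset.sum_le_sum fun i _ => ?_
  refine (measure_biUnion_finset_le _ _).trans ?_
  rw [ENNReal.ofReal_sum_of_nonneg fun j _ => dist_nonneg]
  refine Finset.sum_le_sum fun j _ => ?_
  rw [hausdorffMeasure_segment, edist_dist]

theorem lipschitz_coord (i : Fin 2) : LipschitzWith 1 (fun p : Pl => p i) := by
  refine LipschitzWith.of_dist_le_mul fun p q => ?_
  rw [NNReal.coe_one, one_mul, Real.dist_eq, dist_eq_norm]
  have := EuclideanSpace.norm_eq (p - q)
  have h := PiLp.norm_apply_le (p - q) i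
  simpa using h

theorem exists_boundary (K : Set Pl) (hK : IsCompact K) (p : Pl) (hp : p ∈ K) :
    ∃ q ∈ K \ interior K, q 1 = p 1 := by
  have h1 : IsCompact (K ∩ {q | q 1 = p 1}) := by
    refine hK.inter_right ?_
    exact isClosed_eq (lipschitz_coord 1).continuous continuous_const
  obtain ⟨q, ⟨hq1, hq2⟩, hq3⟩ := h1.exists_isMaxOn ⟨p, hp, rfl⟩
    (lipschitz_coord 0).continuous.continuousOn
  refine ⟨q, ⟨hq1, fun hint => ?_⟩, hq2⟩
  rw [mem_interior_iff_mem_nhds] at hint
  have hc : Tendsto (fun t : ℝ => q + t • (EuclideanSpace.single (0 : Fin 2) (1 : ℝ)))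
      (𝓝[>] 0) (𝓝 q) := by
    have : Continuous (fun t : ℝ => q + t • (EuclideanSpace.single (0 : Fin 2) (1 : ℝ))) := by
      fun_prop
    have h2 := this.tendsto 0
    rw [zero_smul, add_zero] at h2
    exact h2.mono_left nhdsWithin_le_nhds
  obtain ⟨t, ht, ht0⟩ := ((hc.eventually hint).and self_mem_nhdsWithin).exists
  have ht0 : 0 < t := ht0
  have h3 := hq3 (show q + t • (EuclideanSpace.single (0 : Fin 2) (1 : ℝ)) ∈
    K ∩ {q | q 1 = p 1} from ⟨ht, by
      show (q + t • (EuclideanSpace.single (0 : Fin 2) (1 : ℝ))) 1 = p 1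
      simpa using hq2⟩)
  have h4 : (q + t • (EuclideanSpace.single (0 : Fin 2) (1 : ℝ))) 0 ≤ q 0 := h3
  simp at h4
  linarith

theorem coord_le (K : Set Pl) (hK : IsCompact K) (hc : Convex ℝ K) (p q : Pl) (hp : p ∈ K)
    (hq : q ∈ K) : ENNReal.ofReal |p 1 - q 1| ≤ μH[1] (K \ interior K) := by
  have h1 := (lipschitz_coord 1).hausdorffMeasure_image_le (d := 1) zero_le_one (K \ interior K)
  rw [hausdorffMeasure_real] at h1
  simp only [ENNReal.coe_one, ENNReal.one_rpow, one_mul] at h1
  refine le_trans ?_ h1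
  have h2 : uIcc (q 1) (p 1) ⊆ (fun p : Pl => p 1) '' (K \ interior K) := by
    rw [← segment_eq_uIcc]
    rintro y ⟨a, b, ha, hb, hab, rfl⟩
    have h3 : a • q + b • p ∈ K := hc hq hp ha hb hab
    obtain ⟨r, hr, hr2⟩ := exists_boundary K hK _ h3
    refine ⟨r, hr, ?_⟩
    simp only
    rw [hr2]
    simp
  refine le_trans (le_of_eq ?_) (measure_mono h2)
  rw [uIcc, Real.volume_Icc, max_sub_min_eq_abs]

theorem hull_bounds (S : ℕ → Pl) (n : ℕ) :
    perimeter (hull S n) ≤ 2 * ∑ i ∈ Finset.range (n + 1), ∑ j ∈ Finset.range (n + 1),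
        dist (S i) (S j) ∧
      ∀ i ≤ n, ∀ j ≤ n, |S i 1 - S j 1| ≤ perimeter (hull S n) := by
  have h1 := boundary_le S n
  have hs : 0 ≤ ∑ i ∈ Finset.range (n + 1), ∑ j ∈ Finset.range (n + 1), dist (S i) (S j) :=
    Finset.sum_nonneg fun i _ => Finset.sum_nonneg fun j _ => dist_nonneg
  have hne : μH[1] (hull S n \ interior (hull S n)) ≠ ∞ := ne_top_of_le_ne_top (by finiteness) h1
  have h2 : (μH[1] (hull S n \ interior (hull S n))).toReal ≤
      ∑ i ∈ Finset.range (n + 1), ∑ j ∈ Finset.range (n + 1), dist (S i) (S j) := by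
    have := ENNReal.toReal_mono (by finiteness) h1
    rwa [ENNReal.toReal_ofReal hs] at this
  have h3 : ∀ i ≤ n, ∀ j ≤ n, |S i 1 - S j 1| ≤
      (μH[1] (hull S n \ interior (hull S n))).toReal := by
    intro i hi j hj
    have := ENNReal.toReal_mono hne (coord_le (hull S n) (hull_compact S n)
      (convex_convexHull ℝ _) (S i) (S j) (mem_hull S n i hi) (mem_hull S n j hj))
    rwa [ENNReal.toReal_ofReal (abs_nonneg _)] at this
  have h0 : 0 ≤ (μH[1] (hull S n \ interior (hull S n))).toReal := ENNReal.toReal_nonneg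
  rcases perimeter_eq (hull S n) (hull_compact S n).isClosed with h | h <;> rw [h]
  · exact ⟨by linarith, h3⟩
  · refine ⟨by linarith, fun i hi j hj => ?_⟩
    have := h3 i hi j hj
    linarith

end Pool.Agent.Q211.PV
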