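import Pool.Agent.Q211.PV.Geom

/-!
# A variance lower bound, and a heavy tailed symmetric law
-/

set_option autoImplicit false

open MeasureTheory ProbabilityTheory Filter Topology Set
open scoped ENNReal

namespace Pool.Agent.Q211.PV

/-- If `L` is at least `t` on each of `n` pairwise independent events of probability `p` and has
mean at most `t / 2`, then its variance is at least `n p t ^ 2 / 4`. -/
theorem var_lower {Ω : Type*} [MeasurableSpace Ω] (P : Measure Ω) [IsProbabilityMeasure P]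
    (L : Ω → ℝ) (hL : MemLp L 2 P) (A : ℕ → Set Ω) (hA : ∀ i, MeasurableSet (A i)) (n : ℕ)
    (p t : ℝ) (ht : 0 ≤ t) (hp : ∀ i < n, P.real (A i) = p)
    (hind : ∀ i < n, ∀ j < n, i ≠ j →
      IndepFun ((A i).indicator fun _ => (1 : ℝ)) ((A j).indicator fun _ => (1 : ℝ)) P)
    (hLt : ∀ i < n, ∀ ω ∈ A i, t ≤ L ω) (hEL : ∫ ω, L ω ∂P ≤ t / 2) :
    n * p * t ^ 2 / 4 ≤ Var[L; P] := by
  rcases Nat.eq_zero_or_pos n with hn | hn
  · subst hn
    simp [variance_nonneg]
  have hp0 : 0 ≤ p := by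
    rw [← hp 0 hn]
    exact measureReal_nonneg
  set X : ℕ → Ω → ℝ := fun i => (A i).indicator fun _ => (1 : ℝ) with hX
  have hXm : ∀ i, MemLp (X i) 2 P := fun i => memLp_indicator_const 2 (hA i) 1 (Or.inr
    (measure_ne_top _ _))
  have hEX : ∀ i < n, ∫ ω, X i ω ∂P = p := by
    intro i hi
    rw [hX]
    simp only
    rw [integral_indicator_const _ (hA i), hp i hi, smul_eq_mul, mul_one]
  have hcov : ∀ i < n, t * p / 2 ≤ cov[L, X i; P] := by
    intro i hi
    rw [covariance_eq_sub hL (hXm i), hEX i hi]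
    have h1 : t * p ≤ ∫ ω, (L * X i) ω ∂P := by
      have h2 : ∫ ω, t * X i ω ∂P = t * p := by
        rw [integral_const_mul, hEX i hi]
      rw [← h2]
      refine integral_mono ((hXm i).integrable (by norm_num) |>.const_mul t)
        (hL.integrable_mul (hXm i)) fun ω => ?_
      simp only [Pi.mul_apply, hX]
      by_cases hω : ω ∈ A i
      · rw [Set.indicator_of_mem hω, mul_one, mul_one]
        exact hLt i hi ω hω
      · rw [Set.indicator_of_notMem hω, mul_zero, mul_zero]
    have h3 : (∫ ω, L ω ∂P) * p ≤ t / 2 * p := by gcongr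
    linarith
  have hvar : ∀ i < n, Var[X i; P] ≤ p := by
    intro i hi
    refine (variance_le_expectation_sq (hXm i).aestronglyMeasurable).trans (le_of_eq ?_)
    rw [← hEX i hi]
    refine integral_congr_ae (Eventually.of_forall fun ω => ?_)
    simp only [Pi.pow_apply, hX]
    by_cases hω : ω ∈ A i
    · rw [Set.indicator_of_mem hω, one_pow]
    · rw [Set.indicator_of_notMem hω]
      simp
  set T : Ω → ℝ := ∑ i ∈ Finset.range n, X i with hT
  have hTm : MemLp T 2 P := memLp_finsetSum' _ fun i _ => hXm i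
  have hcT : n * (t * p / 2) ≤ cov[L, T; P] := by
    rw [hT, covariance_sum_right' (fun i _ => hXm i) hL]
    calc (n : ℝ) * (t * p / 2) = ∑ i ∈ Finset.range n, t * p / 2 := by simp
      _ ≤ _ := Finset.sum_le_sum fun i hi => hcov i (Finset.mem_range.1 hi)
  have hvT : Var[T; P] ≤ n * p := by
    rw [hT, IndepFun.variance_sum (fun i _ => hXm i) (fun i hi j hj hij =>
      hind i (by simpa using hi) j (by simpa using hj) hij)]
    calc _ ≤ ∑ i ∈ Finset.range n, p :=
        Finset.sum_le_sum fun i hi => hvar i (Finset.mem_range.1 hi)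
      _ = n * p := by simp
  have h0 := variance_nonneg (L - (t / 2) • T) P
  rw [variance_sub hL (hTm.const_smul _), covariance_smul_right, variance_smul] at h0
  have h5 : t * (n * (t * p / 2)) ≤ t * cov[L, T; P] := by gcongr
  have h6 : (t / 2) ^ 2 * Var[T; P] ≤ (t / 2) ^ 2 * (n * p) := by gcongr
  nlinarith

/-- Unnormalised weights. -/
noncomputable def wt (k : ℕ) : ℝ≥0∞ := ENNReal.ofReal ((1 / 4) ^ k / (k + 1) ^ 2)

theorem wt_tsum_ne_zero : ∑' k, wt k ≠ 0 := by
  intro h
  have h1 := ENNReal.tsum_eq_zero.1 h 0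
  simp [wt] at h1

theorem wt_tsum_ne_top : ∑' k, wt k ≠ ∞ := by
  have h1 : Summable fun k : ℕ => ((1 / 4 : ℝ)) ^ k / (k + 1) ^ 2 := by
    refine Summable.of_nonneg_of_le (fun k => by positivity) (fun k => ?_)
      (summable_geometric_of_lt_one (by norm_num : (0 : ℝ) ≤ 1 / 4) (by norm_num))
    refine div_le_self (by positivity) ?_
    have : (0 : ℝ) ≤ k := by positivity
    nlinarith
  unfold wt
  rw [← ENNReal.ofReal_tsum_of_nonneg (fun k => by positivity) h1]
  exact ENNReal.ofReal_ne_top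

/-- The law of the scale. -/
noncomputable def scale : PMF ℕ := PMF.normalize wt wt_tsum_ne_zero wt_tsum_ne_top

/-- The normalising constant. -/
noncomputable def c0 : ℝ := (∑' k, wt k)⁻¹.toReal

theorem c0_pos : 0 < c0 :=
  ENNReal.toReal_pos (ENNReal.inv_ne_zero.2 wt_tsum_ne_top) (ENNReal.inv_ne_top.2 wt_tsum_ne_zero)

theorem scale_toReal (k : ℕ) : (scale k).toReal = c0 * ((1 / 4) ^ k / (k + 1) ^ 2) := by
  unfold scale c0
  rw [PMF.normalize_apply, ENNReal.toReal_mul, mul_comm, wt,
    ENNReal.toReal_ofReal (by positivity)]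

/-- The law of one step: a scale and a fair sign. -/
noncomputable def P0 : Measure (ℕ × Bool) :=
  scale.toMeasure.prod (PMF.uniformOfFintype Bool).toMeasure

instance : IsProbabilityMeasure P0 := by
  unfold P0
  infer_instance

/-- The sign. -/
def sgn (b : Bool) : ℝ := if b then 1 else -1

/-- The vertical step. -/
def wv (e : ℕ × Bool) : ℝ := 2 ^ e.1 * sgn e.2

theorem sgn_sq (b : Bool) : sgn b ^ 2 = 1 := by
  cases b <;> simp [sgn]

theorem wv_sq (e : ℕ × Bool) : wv e ^ 2 = 4 ^ e.1 := by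
  unfold wv
  rw [mul_pow, sgn_sq, mul_one, ← pow_mul, mul_comm, pow_mul]
  norm_num

theorem abs_wv (e : ℕ × Bool) : |wv e| = 2 ^ e.1 := by
  unfold wv
  rw [abs_mul, abs_of_pos (by positivity : (0 : ℝ) < 2 ^ e.1)]
  cases e.2 <;> simp [sgn]

theorem map_fst_P0 : P0.map Prod.fst = scale.toMeasure := by
  unfold P0
  rw [Measure.map_fst_prod, measure_univ, one_smul]

theorem integrable_four : Integrable (fun k : ℕ => (4 : ℝ) ^ k) scale.toMeasure := by
  refine ⟨measurable_from_top.aestronglyMeasurable, ?_⟩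
  unfold HasFiniteIntegral
  rw [lintegral_countable']
  have h1 : ∀ k : ℕ, ‖(4 : ℝ) ^ k‖ₑ * scale.toMeasure {k} =
      ENNReal.ofReal (c0 * (1 / (k + 1) ^ 2)) := by
    intro k
    rw [PMF.toMeasure_apply_singleton _ _ (MeasurableSet.singleton _),
      ← ENNReal.ofReal_toReal (PMF.apply_ne_top scale k), scale_toReal,
      Real.enorm_eq_ofReal (by positivity), ← ENNReal.ofReal_mul (by positivity)]
    congr 1
    have : (4 : ℝ) ^ k * (1 / 4) ^ k = 1 := by
      rw [← mul_pow]
      norm_num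
    calc (4 : ℝ) ^ k * (c0 * ((1 / 4) ^ k / (k + 1) ^ 2)) =
        c0 * ((4 : ℝ) ^ k * (1 / 4) ^ k / (k + 1) ^ 2) := by ring
      _ = _ := by rw [this]
  simp_rw [h1]
  have h2 : Summable fun k : ℕ => c0 * (1 / ((k : ℝ) + 1) ^ 2) := by
    refine Summable.mul_left _ ?_
    have := (summable_nat_add_iff 1).2 (Real.summable_one_div_nat_pow.2 one_lt_two)
    simpa using this
  rw [← ENNReal.ofReal_tsum_of_nonneg (fun k => by have := c0_pos; positivity) h2]
  exact ENNReal.ofReal_lt_top

theorem memLp_wv : MemLp wv 2 P0 := by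
  rw [memLp_two_iff_integrable_sq (measurable_of_countable wv).aestronglyMeasurable]
  simp_rw [wv_sq]
  have h := integrable_four
  rw [← map_fst_P0] at h
  exact h.comp_measurable measurable_fst

theorem integral_wv : ∫ e, wv e ∂P0 = 0 := by
  unfold wv P0
  rw [integral_prod_mul (fun k : ℕ => (2 : ℝ) ^ k) sgn]
  have h : ∫ b, sgn b ∂(PMF.uniformOfFintype Bool).toMeasure = 0 := by
    rw [PMF.integral_eq_sum]
    simp [sgn]
  rw [h, mul_zero]

theorem integral_wv_sq : 0 < ∫ e, wv e ^ 2 ∂P0 := by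
  have h1 : ∫ _e, (1 : ℝ) ∂P0 ≤ ∫ e, wv e ^ 2 ∂P0 := by
    refine integral_mono (integrable_const _) ?_ fun e => ?_
    · exact memLp_wv.integrable_sq
    · simp only
      rw [wv_sq]
      exact one_le_pow₀ (by norm_num)
  have h2 : ∫ _e, (1 : ℝ) ∂P0 = 1 := by simp
  linarith

theorem P0_scale (m : ℕ) : P0.real {e | e.1 = m} = c0 * ((1 / 4) ^ m / (m + 1) ^ 2) := by
  have h1 : P0 {e | e.1 = m} = (P0.map Prod.fst) {m} := by
    rw [Measure.map_apply measurable_fst (MeasurableSet.singleton _)]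
    rfl
  rw [measureReal_def, h1, map_fst_P0,
    PMF.toMeasure_apply_singleton _ _ (MeasurableSet.singleton _), scale_toReal]

end Pool.Agent.Q211.PV
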